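import Pool.Agent.D0H52.FT.Quo

/-!
# FT: the ratio `A (2 n) / A n ^ 2` (module DBL)
-/

set_option autoImplicit false
set_option linter.unusedVariables false

namespace Pool.Agent.D0H52.FT

open Filter Topology Finset
open Pool.Agent.D0H94.T13

/-- differences of `n ↦ A (2 n)` : `T² - 1 = (T - 1) (T + 1)` -/
theorem diff_double (r : ℕ) (A : ℕ → ℝ) : ∀ n : ℕ, diff r (fun n => A (2 * n)) n
    = ∑ i ∈ range (r + 1), (r.choose i : ℝ) * diff r A (2 * n + i) := by
  induction r with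
  | zero =>
    intro n
    simp [diff_zero]
  | succ r ih =>
    intro n
    have h := Finset.sum_choose_succ_mul (R := ℝ) (fun i _ => diff (r + 1) A (2 * n + i)) r
    rw [h, diff_succ, ih n, ih (n + 1), ← Finset.sum_sub_distrib, ← Finset.sum_add_distrib]
    refine Finset.sum_congr rfl fun i _ => ?_
    rw [diff_succ r A (2 * n + i), diff_succ r A (2 * n + (i + 1)),
      show 2 * n + (i + 1) + 1 = 2 * (n + 1) + i by ring,
      show 2 * n + i + 1 = 2 * n + (i + 1) by ring]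
    ring

theorem double_bound (A : ℕ → ℝ) (hA : ∀ n, 0 < A n) (h : Rg A A) :
    ∃ M : ℕ → ℝ, (∀ i, 0 ≤ M i) ∧
      ∀ i n, 2 ≤ n → |diff i (fun n => A (2 * n)) n| ≤ M i * ρ n ^ i * A (2 * n) := by
  obtain ⟨C, hC, h1, h2⟩ := ratio A hA h
  choose K hK hf using h
  have hC0 : 0 ≤ C := by linarith
  refine ⟨fun r => ∑ i ∈ range (r + 1), (r.choose i : ℝ) * (K r * (2 ^ (i + 1)) ^ r * C ^ i),
    fun r => ?_, fun r n hn => ?_⟩
  · refine Finset.sum_nonneg fun i _ => ?_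
    have := hK r
    positivity
  · rw [diff_double]
    refine (Finset.abs_sum_le_sum_abs _ _).trans ?_
    rw [Finset.sum_mul, Finset.sum_mul]
    refine Finset.sum_le_sum fun i _ => ?_
    rw [abs_mul, abs_of_nonneg (Nat.cast_nonneg (α := ℝ) _)]
    have k1 : |diff r A (2 * n + i)| ≤ K r * (2 ^ (i + 1) * ρ n) ^ r * (C ^ i * A (2 * n)) := by
      refine (hf r (2 * n + i) (by omega)).trans ?_
      have e1 : ρ (2 * n + i) ≤ 2 ^ (i + 1) * ρ n := by
        refine (ρ_add (2 * n) (by omega) i).trans ?_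
        have := ρ_two_mul n hn
        calc 2 ^ i * ρ (2 * n) ≤ 2 ^ i * (2 * ρ n) := by gcongr
          _ = 2 ^ (i + 1) * ρ n := by ring
      have e2 := iter_le C hC0 A h1 (2 * n) (by omega) i
      have e3 := ρ_nonneg (2 * n + i)
      have e4 := ρ_nonneg n
      have e5 := hK r
      have e6 := (hA (2 * n + i)).le
      gcongr
    calc (r.choose i : ℝ) * |diff r A (2 * n + i)|
        ≤ (r.choose i : ℝ) * (K r * (2 ^ (i + 1) * ρ n) ^ r * (C ^ i * A (2 * n))) := by gcongr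
      _ = _ := by
        rw [mul_pow]
        ring

/-- MODULE DBL -/
theorem t_DBL : S_DBL := by
  intro A hA h r
  obtain ⟨C, hC, h1, h2⟩ := ratio A hA h
  obtain ⟨M, hM, hinv⟩ := inv_rg A hA h
  obtain ⟨E, hE, hdbl⟩ := double_bound A hA h
  have hC0 : 0 ≤ C := by linarith
  have hinv1 : ∀ n, 2 ≤ n → (A (n + 1))⁻¹ ≤ C * (A n)⁻¹ := by
    intro n hn
    have e := h2 n hn
    have p0 := hA n
    have p1 := hA (n + 1)
    rw [inv_eq_one_div, inv_eq_one_div, mul_one_div, div_le_div_iff₀ p1 p0, one_mul]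
    linarith
  -- the square of the inverse
  have hsq : ∀ r, ∃ Q : ℝ, 0 ≤ Q ∧ ∀ n, 2 ≤ n →
      |diff r (fun n => (A n)⁻¹ * (A n)⁻¹) n| ≤ Q * ρ n ^ r * ((A n)⁻¹ * (A n)⁻¹) := by
    intro r
    obtain ⟨Q, hQ, hh⟩ := prod_bound C hC0 M M hM hM r
    exact ⟨Q, hQ, hh (fun n => (A n)⁻¹) (fun n => (A n)⁻¹) (fun n => (A n)⁻¹) (fun n => (A n)⁻¹)
      (fun n => (inv_pos.2 (hA n)).le) (fun n => (inv_pos.2 (hA n)).le) hinv1 hinv hinv⟩
  choose Q hQ hsq using hsq
  obtain ⟨R, hR, hh⟩ := prod_bound (C * C) (by positivity) E Q hE hQ r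
  refine ⟨R, hR, fun n hn => ?_⟩
  have := hh (fun n => A (2 * n)) (fun n => A (2 * n)) (fun n => (A n)⁻¹ * (A n)⁻¹)
    (fun n => (A n)⁻¹ * (A n)⁻¹) (fun n => (hA _).le)
    (fun n => mul_nonneg (inv_pos.2 (hA n)).le (inv_pos.2 (hA n)).le) (by
      intro n hn
      have e1 := h1 (2 * n) (by omega)
      have e2 := h1 (2 * n + 1) (by omega)
      show A (2 * (n + 1)) ≤ C * C * A (2 * n)
      calc A (2 * (n + 1)) = A (2 * n + 1 + 1) := by rw [show 2 * (n + 1) = 2 * n + 1 + 1 by ring]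
        _ ≤ C * A (2 * n + 1) := e2
        _ ≤ C * (C * A (2 * n)) := by gcongr
        _ = C * C * A (2 * n) := by ring) hdbl hsq n hn
  have e : (fun n => A (2 * n) / A n ^ 2) = fun n => A (2 * n) * ((A n)⁻¹ * (A n)⁻¹) := by
    funext n
    rw [div_eq_mul_inv, pow_two, mul_inv]
  rw [e]
  exact this

end Pool.Agent.D0H52.FT
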