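import Pool.Agent.D0H94.T13.Stm

/-!
# FT: regular sequences, products, inverses, quotients (module QUO)

`leib` is the Leibniz rule for the differences, `prod_bound` the regularity of a product,
`inv_bound` the regularity of `1 / A`, `ratio` the bounds for `A (n + 1) / A n`.
-/

set_option autoImplicit false
set_option linter.unusedVariables false

namespace Pool.Agent.D0H52.FT

open Filter Topology Finset
open Pool.Agent.D0H94.T13

theorem diff_zero (f : ℕ → ℝ) (n : ℕ) : diff 0 f n = f n := by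
  simp [diff]

theorem diff_succ (r : ℕ) (f : ℕ → ℝ) (n : ℕ) :
    diff (r + 1) f n = diff r f n - diff r f (n + 1) := by
  have h := Finset.sum_choose_succ_mul (R := ℝ) (fun i _ => (-1 : ℝ) ^ i * f (n + i)) r
  have e1 : diff (r + 1) f n
      = ∑ i ∈ range (r + 2), ((r + 1).choose i : ℝ) * ((-1 : ℝ) ^ i * f (n + i)) := by
    unfold diff
    refine Finset.sum_congr rfl fun i _ => ?_
    ring
  have e2 : diff r f n = ∑ i ∈ range (r + 1), (r.choose i : ℝ) * ((-1 : ℝ) ^ i * f (n + i)) := by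
    unfold diff
    refine Finset.sum_congr rfl fun i _ => ?_
    ring
  have e3 : - diff r f (n + 1)
      = ∑ i ∈ range (r + 1), (r.choose i : ℝ) * ((-1 : ℝ) ^ (i + 1) * f (n + (i + 1))) := by
    unfold diff
    rw [← Finset.sum_neg_distrib]
    refine Finset.sum_congr rfl fun i _ => ?_
    rw [show n + 1 + i = n + (i + 1) by ring, pow_succ]
    ring
  rw [e1, h, sub_eq_add_neg, e2, e3]

theorem diff_add (r : ℕ) (f g : ℕ → ℝ) (n : ℕ) :
    diff r (fun n => f n + g n) n = diff r f n + diff r g n := by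
  unfold diff
  rw [← Finset.sum_add_distrib]
  refine Finset.sum_congr rfl fun i _ => ?_
  ring

theorem diff_sub (r : ℕ) (f g : ℕ → ℝ) (n : ℕ) :
    diff r (fun n => f n - g n) n = diff r f n - diff r g n := by
  unfold diff
  rw [← Finset.sum_sub_distrib]
  refine Finset.sum_congr rfl fun i _ => ?_
  ring

theorem diff_shift (r : ℕ) (f : ℕ → ℝ) (n : ℕ) :
    diff r (fun n => f (n + 1)) n = diff r f (n + 1) := by
  unfold diff
  refine Finset.sum_congr rfl fun i _ => ?_
  rw [show n + 1 + i = n + i + 1 by ring]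

theorem diff_succ' (r : ℕ) (f : ℕ → ℝ) (n : ℕ) :
    diff (r + 1) f n = diff r (fun n => f n - f (n + 1)) n := by
  rw [diff_succ, diff_sub, diff_shift]

/-- the Leibniz rule -/
theorem leib (r : ℕ) : ∀ (f g : ℕ → ℝ) (n : ℕ), diff r (fun n => f n * g n) n
    = ∑ p ∈ antidiagonal r, (r.choose p.1 : ℝ) * (diff p.1 f (n + p.2) * diff p.2 g n) := by
  induction r with
  | zero =>
    intro f g n
    simp [diff_zero]
  | succ r ih =>
    intro f g n
    have h1 : (fun n => f n * g n - f (n + 1) * g (n + 1))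
        = fun n => (fun n => f n - f (n + 1)) n * g n
          + (fun n => f (n + 1)) n * (fun n => g n - g (n + 1)) n := by
      funext n
      ring
    rw [diff_succ', h1, diff_add, ih, ih]
    rw [Finset.sum_antidiagonal_choose_succ_mul (R := ℝ)
      (fun i j => diff i f (n + j) * diff j g n) r, add_comm]
    congr 1
    · refine Finset.sum_congr rfl fun p _ => ?_
      rw [diff_shift, ← diff_succ', show n + p.2 + 1 = n + (p.2 + 1) by ring]
    · refine Finset.sum_congr rfl fun p hp => ?_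
      rw [← diff_succ']
      have : r.choose p.2 = r.choose p.1 := by
        rw [HasAntidiagonal.mem_antidiagonal] at hp
        rw [← hp]
        exact Nat.choose_symm_add.symm
      rw [this]

/-! ### the rate -/

theorem ρ_nonneg (n : ℕ) : 0 ≤ ρ n :=
  div_nonneg (Real.log_natCast_nonneg n) (Real.sqrt_nonneg _)

theorem ρ_le_two (n : ℕ) : ρ n ≤ 2 := by
  unfold ρ
  rcases Nat.eq_zero_or_pos n with rfl | hn
  · simp
  have h0 : (0 : ℝ) < n := by exact_mod_cast hn
  have h1 : 0 < Real.sqrt n := Real.sqrt_pos.2 h0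
  rw [div_le_iff₀ h1]
  have h2 : Real.log n = 2 * Real.log (Real.sqrt n) := by
    rw [Real.log_sqrt h0.le]; ring
  have h3 := Real.log_le_sub_one_of_pos h1
  linarith

theorem ρ_succ (n : ℕ) (hn : 2 ≤ n) : ρ (n + 1) ≤ 2 * ρ n := by
  unfold ρ
  have h0 : (2 : ℝ) ≤ n := by exact_mod_cast hn
  have h1 : 0 < Real.sqrt n := Real.sqrt_pos.2 (by linarith)
  have h2 : Real.sqrt n ≤ Real.sqrt (n + 1 : ℕ) := Real.sqrt_le_sqrt (by push_cast; linarith)
  have h3 : Real.log (n + 1 : ℕ) ≤ 2 * Real.log n := by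
    rw [show 2 * Real.log (n : ℝ) = Real.log ((n : ℝ) ^ 2) by rw [Real.log_pow]; push_cast; ring]
    refine Real.log_le_log (by positivity) ?_
    push_cast
    nlinarith
  calc Real.log (n + 1 : ℕ) / Real.sqrt (n + 1 : ℕ)
      ≤ Real.log (n + 1 : ℕ) / Real.sqrt n :=
        div_le_div_of_nonneg_left (Real.log_natCast_nonneg _) h1 h2
    _ ≤ (2 * Real.log n) / Real.sqrt n := by gcongr
    _ = 2 * (Real.log n / Real.sqrt n) := by ring

theorem ρ_add (n : ℕ) (hn : 2 ≤ n) (i : ℕ) : ρ (n + i) ≤ 2 ^ i * ρ n := by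
  induction i with
  | zero => simp
  | succ i ih =>
    have h := ρ_succ (n + i) (by omega)
    rw [show n + (i + 1) = n + i + 1 by ring]
    calc ρ (n + i + 1) ≤ 2 * ρ (n + i) := h
      _ ≤ 2 * (2 ^ i * ρ n) := by linarith
      _ = 2 ^ (i + 1) * ρ n := by ring

theorem ρ_two_mul (n : ℕ) (hn : 2 ≤ n) : ρ (2 * n) ≤ 2 * ρ n := by
  unfold ρ
  have h0 : (2 : ℝ) ≤ n := by exact_mod_cast hn
  have h1 : 0 < Real.sqrt n := Real.sqrt_pos.2 (by linarith)
  have h2 : Real.sqrt n ≤ Real.sqrt (2 * n : ℕ) := Real.sqrt_le_sqrt (by push_cast; linarith)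
  have h3 : Real.log (2 * n : ℕ) ≤ 2 * Real.log n := by
    rw [show 2 * Real.log (n : ℝ) = Real.log ((n : ℝ) ^ 2) by rw [Real.log_pow]; push_cast; ring]
    refine Real.log_le_log (by push_cast; linarith) ?_
    push_cast
    nlinarith
  calc Real.log (2 * n : ℕ) / Real.sqrt (2 * n : ℕ)
      ≤ Real.log (2 * n : ℕ) / Real.sqrt n :=
        div_le_div_of_nonneg_left (Real.log_natCast_nonneg _) h1 h2
    _ ≤ (2 * Real.log n) / Real.sqrt n := by gcongr
    _ = 2 * (Real.log n / Real.sqrt n) := by ring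

theorem ρ_tendsto : Tendsto ρ atTop (𝓝 0) := by
  have h := (isLittleO_log_rpow_atTop (r := 1 / 2) (by norm_num)).tendsto_div_nhds_zero
  have h2 := h.comp tendsto_natCast_atTop_atTop
  refine h2.congr fun n => ?_
  simp only [Function.comp, ρ, Real.sqrt_eq_rpow]

/-! ### bounds of the ratio -/

theorem iter_le (C : ℝ) (hC : 0 ≤ C) (a : ℕ → ℝ) (h : ∀ n, 2 ≤ n → a (n + 1) ≤ C * a n)
    (n : ℕ) (hn : 2 ≤ n) (i : ℕ) : a (n + i) ≤ C ^ i * a n := by
  induction i with
  | zero => simp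
  | succ i ih =>
    rw [show n + (i + 1) = n + i + 1 by ring]
    calc a (n + i + 1) ≤ C * a (n + i) := h _ (by omega)
      _ ≤ C * (C ^ i * a n) := by gcongr
      _ = C ^ (i + 1) * a n := by ring

theorem iter_ge (c : ℝ) (hc : 0 ≤ c) (a : ℕ → ℝ) (h : ∀ n, 2 ≤ n → a n ≤ c * a (n + 1))
    (n : ℕ) (hn : 2 ≤ n) (i : ℕ) : a n ≤ c ^ i * a (n + i) := by
  induction i with
  | zero => simp
  | succ i ih =>
    rw [show n + (i + 1) = n + i + 1 by ring]
    calc a n ≤ c ^ i * a (n + i) := ih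
      _ ≤ c ^ i * (c * a (n + i + 1)) := by
        gcongr
        exact h _ (by omega)
      _ = c ^ (i + 1) * a (n + i + 1) := by ring

theorem ratio (A : ℕ → ℝ) (hA : ∀ n, 0 < A n) (h : Rg A A) :
    ∃ C : ℝ, 1 ≤ C ∧ (∀ n, 2 ≤ n → A (n + 1) ≤ C * A n) ∧
      ∀ n, 2 ≤ n → A n ≤ C * A (n + 1) := by
  obtain ⟨K, hK, h1⟩ := h 1
  have h2 : ∀ n, 2 ≤ n → |A n - A (n + 1)| ≤ K * ρ n * A n := by
    intro n hn
    have := h1 n hn
    rw [diff_succ, diff_zero, diff_zero, pow_one] at this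
    exact this
  have hev : ∀ᶠ n in atTop, K * ρ n < 1 / 2 := by
    have : Tendsto (fun n => K * ρ n) atTop (𝓝 (K * 0)) := ρ_tendsto.const_mul K
    rw [mul_zero] at this
    exact this.eventually (gt_mem_nhds (by norm_num))
  obtain ⟨N, hN⟩ := eventually_atTop.1 hev
  have hfin : ∀ M : ℕ, ∃ C : ℝ, 0 ≤ C ∧ ∀ n, n < M → A n ≤ C * A (n + 1) := by
    intro M
    induction M with
    | zero => exact ⟨0, le_refl _, fun n hn => absurd hn (by omega)⟩
    | succ M ih =>
      obtain ⟨C, hC, hh⟩ := ih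
      refine ⟨max C (A M / A (M + 1)), le_trans hC (le_max_left _ _), fun n hn => ?_⟩
      rcases Nat.lt_succ_iff_lt_or_eq.1 hn with h' | h'
      · exact (hh n h').trans (mul_le_mul_of_nonneg_right (le_max_left _ _) (hA _).le)
      · subst h'
        calc A n = (A n / A (n + 1)) * A (n + 1) := by
              rw [div_mul_cancel₀ _ (hA _).ne']
          _ ≤ _ := mul_le_mul_of_nonneg_right (le_max_right _ _) (hA _).le
  obtain ⟨C0, hC0, hh⟩ := hfin N
  refine ⟨1 + 2 * K + 2 + C0, by linarith, fun n hn => ?_, fun n hn => ?_⟩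
  · have e := (abs_le.1 (h2 n hn)).1
    have e2 : K * ρ n * A n ≤ K * 2 * A n := by
      have := ρ_le_two n
      have h3 := (hA n).le
      gcongr
    have h4 := (hA n).le
    nlinarith [mul_nonneg hC0 h4]
  · rcases lt_or_ge n N with h' | h'
    · refine (hh n h').trans (mul_le_mul_of_nonneg_right ?_ (hA _).le)
      linarith
    · have e := (abs_le.1 (h2 n hn)).2
      have e2 := hN n h'
      have h4 := hA n
      have h5 := hA (n + 1)
      have e3 : K * ρ n * A n ≤ 1 / 2 * A n := mul_le_mul_of_nonneg_right e2.le h4.le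
      have e4 : A n ≤ 2 * A (n + 1) := by linarith
      nlinarith [mul_nonneg hC0 h5.le, mul_nonneg hK h5.le]

/-! ### products -/

theorem prod_bound (C : ℝ) (hC : 0 ≤ C) (K L : ℕ → ℝ) (hK : ∀ r, 0 ≤ K r) (hL : ∀ r, 0 ≤ L r)
    (r : ℕ) : ∃ M : ℝ, 0 ≤ M ∧ ∀ a f b g : ℕ → ℝ, (∀ n, 0 ≤ a n) → (∀ n, 0 ≤ b n) →
      (∀ n, 2 ≤ n → a (n + 1) ≤ C * a n) →
      (∀ r n, 2 ≤ n → |diff r f n| ≤ K r * ρ n ^ r * a n) →
      (∀ r n, 2 ≤ n → |diff r g n| ≤ L r * ρ n ^ r * b n) →
      ∀ n, 2 ≤ n → |diff r (fun n => f n * g n) n| ≤ M * ρ n ^ r * (a n * b n) := by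
  refine ⟨∑ p ∈ antidiagonal r, (r.choose p.1 : ℝ) *
    (K p.1 * (2 ^ p.2) ^ p.1 * C ^ p.2 * L p.2), ?_, ?_⟩
  · refine Finset.sum_nonneg fun p _ => ?_
    have := hK p.1
    have := hL p.2
    positivity
  · intro a f b g ha hb hr hf hg n hn
    rw [leib]
    refine (Finset.abs_sum_le_sum_abs _ _).trans ?_
    rw [Finset.sum_mul, Finset.sum_mul]
    refine Finset.sum_le_sum fun p hp => ?_
    rw [HasAntidiagonal.mem_antidiagonal] at hp
    rw [abs_mul, abs_mul, abs_of_nonneg (Nat.cast_nonneg (α := ℝ) _)]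
    have h1 : |diff p.1 f (n + p.2)| ≤ K p.1 * (2 ^ p.2 * ρ n) ^ p.1 * (C ^ p.2 * a n) := by
      refine (hf p.1 (n + p.2) (by omega)).trans ?_
      have e1 := ρ_add n hn p.2
      have e2 := iter_le C hC a hr n hn p.2
      have e3 := ρ_nonneg (n + p.2)
      have e4 := ρ_nonneg n
      have e5 := hK p.1
      have e6 := ha (n + p.2)
      gcongr
    have h2 := hg p.2 n hn
    have e4 := ρ_nonneg n
    have e5 := hK p.1
    have e7 := hL p.2
    have e6 := ha n
    have e8 := hb n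
    calc (r.choose p.1 : ℝ) * (|diff p.1 f (n + p.2)| * |diff p.2 g n|)
        ≤ (r.choose p.1 : ℝ) * ((K p.1 * (2 ^ p.2 * ρ n) ^ p.1 * (C ^ p.2 * a n)) *
            (L p.2 * ρ n ^ p.2 * b n)) := by
          refine mul_le_mul_of_nonneg_left ?_ (Nat.cast_nonneg _)
          exact mul_le_mul h1 h2 (abs_nonneg _) (by positivity)
      _ = (r.choose p.1 : ℝ) * (K p.1 * (2 ^ p.2) ^ p.1 * C ^ p.2 * L p.2) * ρ n ^ r
            * (a n * b n) := by
          rw [← hp, pow_add, mul_pow]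
          ring

/-! ### inverses -/

theorem diff_one (r : ℕ) (n : ℕ) : diff (r + 1) (fun _ => (1 : ℝ)) n = 0 := by
  have h : ∀ r n m, diff r (fun _ => (1 : ℝ)) n = diff r (fun _ => (1 : ℝ)) m := fun r n m => rfl
  rw [diff_succ, h r n (n + 1), sub_self]

theorem inv_bound (c : ℝ) (hc : 0 ≤ c) (K : ℕ → ℝ) (hK : ∀ r, 0 ≤ K r) (r : ℕ) :
    ∃ M : ℕ → ℝ, (∀ i, 0 ≤ M i) ∧ ∀ A : ℕ → ℝ, (∀ n, 0 < A n) →
      (∀ n, 2 ≤ n → A n ≤ c * A (n + 1)) →
      (∀ r n, 2 ≤ n → |diff r A n| ≤ K r * ρ n ^ r * A n) →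
      ∀ i ≤ r, ∀ n, 2 ≤ n → |diff i (fun n => (A n)⁻¹) n| ≤ M i * ρ n ^ i * (A n)⁻¹ := by
  induction r with
  | zero =>
    refine ⟨fun _ => 1, fun _ => zero_le_one, ?_⟩
    intro A hA _ _ i hi n hn
    obtain rfl : i = 0 := by omega
    rw [diff_zero, abs_of_pos (inv_pos.2 (hA n))]
    simp
  | succ r ih =>
    obtain ⟨M, hM, ih⟩ := ih
    set M1 : ℝ := ∑ p ∈ antidiagonal r, ((r + 1).choose (p.1 + 1) : ℝ) *
      (K (p.1 + 1) * (2 ^ p.2) ^ (p.1 + 1) * c ^ (p.1 + 1) * M p.2) with hM1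
    have hM1' : 0 ≤ M1 := by
      refine Finset.sum_nonneg fun p _ => ?_
      have := hK (p.1 + 1)
      have := hM p.2
      positivity
    refine ⟨fun i => if i ≤ r then M i else M1, fun i => ?_, ?_⟩
    · show 0 ≤ if i ≤ r then M i else M1
      split_ifs
      · exact hM i
      · exact hM1'
    intro A hA hr hf i hi n hn
    rcases Nat.lt_or_ge i (r + 1) with h' | h'
    · have h2 : i ≤ r := by omega
      simp only [h2, if_true]
      exact ih A hA hr hf i h2 n hn
    · obtain rfl : i = r + 1 := by omega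
      have h2 : ¬ (r + 1 ≤ r) := by omega
      simp only [h2, if_false]
      have hl := leib (r + 1) A (fun n => (A n)⁻¹) n
      have h1 : (fun n => A n * (A n)⁻¹) = fun _ => (1 : ℝ) := by
        funext n
        exact mul_inv_cancel₀ (hA n).ne'
      rw [h1, diff_one, Finset.Nat.sum_antidiagonal_succ] at hl
      simp only [Nat.choose_zero_right, Nat.cast_one, one_mul, diff_zero] at hl
      have h3 : A (n + (r + 1)) * diff (r + 1) (fun n => (A n)⁻¹) n
          = - ∑ p ∈ antidiagonal r, ((r + 1).choose (p.1 + 1) : ℝ) *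
            (diff (p.1 + 1) A (n + p.2) * diff p.2 (fun n => (A n)⁻¹) n) := by
        linarith
      have h4 : A (n + (r + 1)) * |diff (r + 1) (fun n => (A n)⁻¹) n|
          ≤ A (n + (r + 1)) * (M1 * ρ n ^ (r + 1) * (A n)⁻¹) := by
        calc A (n + (r + 1)) * |diff (r + 1) (fun n => (A n)⁻¹) n|
            = |A (n + (r + 1)) * diff (r + 1) (fun n => (A n)⁻¹) n| := by
              rw [abs_mul, abs_of_pos (hA _)]
          _ = |∑ p ∈ antidiagonal r, ((r + 1).choose (p.1 + 1) : ℝ) *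
            (diff (p.1 + 1) A (n + p.2) * diff p.2 (fun n => (A n)⁻¹) n)| := by
              rw [h3, abs_neg]
          _ ≤ ∑ p ∈ antidiagonal r, |((r + 1).choose (p.1 + 1) : ℝ) *
            (diff (p.1 + 1) A (n + p.2) * diff p.2 (fun n => (A n)⁻¹) n)| :=
              Finset.abs_sum_le_sum_abs _ _
          _ ≤ ∑ p ∈ antidiagonal r, A (n + (r + 1)) * ((((r + 1).choose (p.1 + 1) : ℝ) *
              (K (p.1 + 1) * (2 ^ p.2) ^ (p.1 + 1) * c ^ (p.1 + 1) * M p.2))
                * ρ n ^ (r + 1) * (A n)⁻¹) := by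
              refine Finset.sum_le_sum fun p hp => ?_
              rw [HasAntidiagonal.mem_antidiagonal] at hp
              rw [abs_mul, abs_mul, abs_of_nonneg (Nat.cast_nonneg (α := ℝ) _)]
              have k1 : |diff (p.1 + 1) A (n + p.2)| ≤ K (p.1 + 1) * (2 ^ p.2 * ρ n) ^ (p.1 + 1)
                  * (c ^ (p.1 + 1) * A (n + (r + 1))) := by
                refine (hf (p.1 + 1) (n + p.2) (by omega)).trans ?_
                have e1 := ρ_add n hn p.2
                have e2 := iter_ge c hc A hr (n + p.2) (by omega) (p.1 + 1)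
                rw [show n + p.2 + (p.1 + 1) = n + (r + 1) by omega] at e2
                have e3 := ρ_nonneg (n + p.2)
                have e4 := ρ_nonneg n
                have e5 := hK (p.1 + 1)
                have e6 := (hA (n + p.2)).le
                gcongr
              have k2 := ih A hA hr hf p.2 (by omega) n hn
              have e4 := ρ_nonneg n
              have e5 := hK (p.1 + 1)
              have e7 := hM p.2
              have e6 := (hA (n + (r + 1))).le
              have e8 := (inv_pos.2 (hA n)).le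
              calc ((r + 1).choose (p.1 + 1) : ℝ) * (|diff (p.1 + 1) A (n + p.2)| *
                    |diff p.2 (fun n => (A n)⁻¹) n|)
                  ≤ ((r + 1).choose (p.1 + 1) : ℝ) * ((K (p.1 + 1) *
                      (2 ^ p.2 * ρ n) ^ (p.1 + 1) * (c ^ (p.1 + 1) * A (n + (r + 1)))) *
                      (M p.2 * ρ n ^ p.2 * (A n)⁻¹)) := by
                    refine mul_le_mul_of_nonneg_left ?_ (Nat.cast_nonneg _)
                    exact mul_le_mul k1 k2 (abs_nonneg _) (by positivity)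
                _ = _ := by
                    rw [show ρ n ^ (r + 1) = ρ n ^ (p.1 + 1) * ρ n ^ p.2 by
                      rw [← pow_add, show p.1 + 1 + p.2 = r + 1 by omega], mul_pow]
                    ring
          _ = A (n + (r + 1)) * (M1 * ρ n ^ (r + 1) * (A n)⁻¹) := by
              rw [hM1, ← Finset.mul_sum, ← Finset.sum_mul, ← Finset.sum_mul]
      exact le_of_mul_le_mul_left h4 (hA _)

/-- the inverse, all orders at once -/
theorem inv_rg (A : ℕ → ℝ) (hA : ∀ n, 0 < A n) (h : Rg A A) :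
    ∃ M : ℕ → ℝ, (∀ i, 0 ≤ M i) ∧
      ∀ i n, 2 ≤ n → |diff i (fun n => (A n)⁻¹) n| ≤ M i * ρ n ^ i * (A n)⁻¹ := by
  obtain ⟨C, hC, h1, h2⟩ := ratio A hA h
  choose K hK hf using h
  have key : ∀ r, ∃ M : ℝ, 0 ≤ M ∧ ∀ n, 2 ≤ n →
      |diff r (fun n => (A n)⁻¹) n| ≤ M * ρ n ^ r * (A n)⁻¹ := by
    intro r
    obtain ⟨M, hM, hh⟩ := inv_bound C (by linarith) K hK r
    exact ⟨M r, hM r, fun n hn => hh A hA h2 hf r (le_refl _) n hn⟩
  choose M hM hh using key
  exact ⟨M, hM, fun i n hn => hh i n hn⟩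

/-- MODULE QUO -/
theorem t_QUO : S_QUO := by
  intro A hA h L hL r
  obtain ⟨C, hC, h1, h2⟩ := ratio A hA h
  obtain ⟨M, hM, hinv⟩ := inv_rg A hA h
  obtain ⟨K, hK, hh⟩ := prod_bound C (by linarith) L M hL hM r
  refine ⟨K, hK, fun B hB n hn => ?_⟩
  have := hh A B (fun n => (A n)⁻¹) (fun n => (A n)⁻¹) (fun n => (hA n).le)
    (fun n => (inv_pos.2 (hA n)).le) h1 hB hinv n hn
  rw [mul_inv_cancel₀ (hA n).ne', mul_one] at this
  simpa only [div_eq_mul_inv] using this

end Pool.Agent.D0H52.FT
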